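import Pool.Agent.Helper98.EX.Stmts2

/-!
# PHASE: one phase of the `n`-particle system
-/

namespace Pool.Agent.Helper98.EX

open Finset

/-- the block `[A, A+n)` -/
def phase_blk (N A n : ℕ) : Cfg N := fun i => decide (A ≤ i.val ∧ i.val < A + n)

theorem phase_occ {N A n i : ℕ} : occ (phase_blk N A n) i = true ↔ (A ≤ i ∧ i < A + n) ∧ i < N := by
  unfold occ phase_blk
  split_ifs with h <;> simp [h]

theorem phase_ht {N A n : ℕ} (hN : A + n ≤ N) (x : ℕ) :
    ht (phase_blk N A n) x = min n (A + n - x) := by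
  have h : ∀ d, d ≤ N → ht (phase_blk N A n) (N - d) = min n (A + n - (N - d)) := by
    intro d
    induction d with
    | zero => intro _; rw [ht_ge (by omega)]; omega
    | succ d ih =>
      intro hd
      have e : N - (d + 1) + 1 = N - d := by omega
      rw [ht_succ _ (by omega : N - (d + 1) < N), e, ih (by omega)]
      by_cases hh : A ≤ N - (d + 1) ∧ N - (d + 1) < A + n
      · rw [if_pos (by rw [phase_occ]; exact ⟨hh, by omega⟩)]; omega
      · rw [if_neg (by rw [phase_occ]; omega)]; omega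
  rcases le_or_gt x N with hx | hx
  · have := h (N - x) (by omega)
    have e : N - (N - x) = x := by omega
    rwa [e] at this
  · rw [ht_ge (by omega)]; omega

theorem phase_frozen {N : ℕ} {r l : ℕ → ℝ} (h : Adm N r l) (σ : ℕ → Finset ℕ) (m A n : ℕ)
    (hσ : ∀ i, A ∉ σ i) {E F : Set (Cfg N)} (hEF : ∀ ζ, ht ζ A = n → ζ ∈ E → ζ ∈ F) {η : Cfg N}
    (hη : ht η A = n) : pr r l σ m E η ≤ pr r l σ m F η := by
  unfold pr
  apply ev_couple h σ σ m (fun _ η ξ => η = ξ ∧ ht η A = n)
  · intro i η ξ _ h1; exact h1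
  · rintro i η ξ x _ _ _ ⟨rfl, h2⟩
    refine ⟨rfl, ?_⟩
    unfold RmS; split_ifs with hx
    · have hne : A ≠ x := fun e => hσ i (e ▸ hx)
      rw [ht_Rm_ne η hne]; exact h2
    · exact h2
  · rintro i η ξ x _ _ _ ⟨rfl, h2⟩
    refine ⟨rfl, ?_⟩
    unfold LmS; split_ifs with hx
    · have hne : A ≠ x := fun e => hσ i (e ▸ hx)
      rw [ht_Lm_ne η hne]; exact h2
    · exact h2
  · rintro η ξ ⟨rfl, h2⟩
    by_cases hE : η ∈ E
    · rw [ind_of_mem hE, ind_of_mem (hEF η h2 hE)]
    · rw [ind_of_not_mem hE]; exact ind_nonneg F η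
  · exact ⟨rfl, hη⟩

theorem phase_RR_nonneg {N : ℕ} {r l : ℕ → ℝ} (h : Adm N r l) (z x : ℕ) (hx : x < N) :
    0 ≤ RR r l z x := by
  unfold RR
  apply Finset.prod_nonneg
  intro b hb
  rw [Finset.mem_Ioc] at hb
  obtain ⟨h1, _, h3, _⟩ := h b (by omega) (by omega)
  exact div_nonneg h3 h1.le

theorem phase_atl_nonneg {N : ℕ} {r l : ℕ → ℝ} (h : Adm N r l) (η0 : ℝ) (h0 : 0 < η0) (w y : ℕ)
    (hy : y + 1 < N) : 0 ≤ atl r l η0 w y := by
  unfold atl
  apply Finset.sum_nonneg
  intro d _
  obtain ⟨h1, _, _, _⟩ := h (y + 1) (by omega) hy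
  apply div_nonneg _ h1.le
  apply mul_nonneg (by positivity)
  exact phase_RR_nonneg h _ _ (by omega)

theorem phase_mirr_adm {N : ℕ} {r l : ℕ → ℝ} (h : Adm N r l) : Adm N (mirr N r) (mirr N l) := by
  intro x h1 h2
  exact h (N - x) (by omega) (by omega)

theorem st_PHASE (hSTR : ST_STREAM) (_hLOC : ST_LOC) : ST_PHASE := by
  intro γ δ1 η0 Cs hγ hγ1 hδ hδ1 hη hη1 hCs
  obtain ⟨N0, hN0⟩ := hSTR γ δ1 η0 Cs hγ hγ1 hδ hδ1 hη hη1 hCs
  refine ⟨N0, ?_⟩
  intro N r l A B w n as hN hE hn hAB has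
  have hBN := hE.hBN
  have hw := hE.w1
  have hhA := hE.hA
  have hhB := hE.hB
  have hNpos : 0 < N := by omega
  obtain ⟨σ, m, hσ, hm, hmain⟩ := hN0 N r l A (B - n) B w n as ((N : ℝ) ^ γ * as) hN hE hn
    (by omega) (by omega) has le_rfl
  refine ⟨σ, m, hσ, ?_, ?_⟩
  · refine hm.trans ?_
    have hl0 : 0 ≤ ∑ y ∈ Finset.Ico A (B - n), atl r l η0 w y := by
      apply Finset.sum_nonneg
      intro y hy
      rw [Finset.mem_Ico] at hy
      exact phase_atl_nonneg hE.adm η0 hη w y (by omega)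
    have hr1 : ∑ y ∈ Finset.Ico (N - B) (N - (B - n)), atl (mirr N r) (mirr N l) η0 w y ≤
        n * as := by
      have h1 : ∑ y ∈ Finset.Ico (N - B) (N - (B - n)), atl (mirr N r) (mirr N l) η0 w y ≤
          ∑ y ∈ Finset.Ico (N - B) (N - (B - n)), as := by
        apply Finset.sum_le_sum
        intro y hy
        rw [Finset.mem_Ico] at hy
        exact hE.at_r y hy.1 hy.2
      refine h1.trans ?_
      rw [Finset.sum_const, Nat.card_Ico, nsmul_eq_mul]
      have e : N - (B - n) - (N - B) = n := by omega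
      rw [e]
    have has0 : 0 ≤ (n : ℝ) * as := by positivity
    have hmax : max (∑ y ∈ Finset.Ico A (B - n), atl r l η0 w y)
        (∑ y ∈ Finset.Ico (N - B) (N - (B - n)), atl (mirr N r) (mirr N l) η0 w y) ≤
        ∑ y ∈ Finset.Ico A (B - n), atl r l η0 w y + n * as := by
      apply max_le
      · linarith
      · linarith
    apply mul_le_mul_of_nonneg_left _ (by positivity)
    apply mul_le_mul_of_nonneg_left _ (by positivity)
    linarith
  · intro ξ hξ0 hξA
    have hAnN : A + n ≤ N := by omega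
    have hz0 : ht (phase_blk N A n) 0 = n := by rw [phase_ht hAnN]; omega
    have hzA : ht (phase_blk N A n) A = n := by rw [phase_ht hAnN]; omega
    have hle0 : hle 0 (phase_blk N A n) ξ := by
      intro x
      rw [phase_ht hAnN]
      rcases le_or_gt x A with hx | hx
      · have := ht_anti ξ hx
        omega
      · have := ht_le_sub ξ hx.le
        omega
    have hset : {ζ : Cfg N | ht ζ (B - n - w) < n} = {ζ : Cfg N | n ≤ ht ζ (B - n - w)}ᶜ := by
      ext ζ; simp
    have hinc : Inc n (ind {ζ : Cfg N | n ≤ ht ζ (B - n - w)}) := by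
      apply pr_Inc_ind
      intro a b _ _ hab ha
      have := hab (B - n - w)
      simp only [Set.mem_setOf_eq] at ha ⊢
      omega
    have h1 : pr r l σ m {ζ | ht ζ (B - n - w) < n} ξ ≤
        pr r l σ m {ζ | ht ζ (B - n - w) < n} (phase_blk N A n) := by
      rw [hset, pr_compl, pr_compl]
      have := ev_inc hE.adm hinc σ m (phase_blk N A n) ξ hz0 hξ0 hle0
      unfold pr
      linarith
    refine h1.trans ?_
    have h2 := phase_frozen hE.adm σ m A n
      (fun i hi => by have := hσ i hi; rw [Finset.mem_Ioo] at this; omega)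
      (E := {ζ | ht ζ (B - n - w) < n}) (F := (sorted A (B - n - w) (B - n + w) B)ᶜ)
      (fun ζ hζ hlt hs => by
        have hcnt : cnt ζ A (B - n - w) = 0 := by
          unfold cnt
          apply Finset.sum_eq_zero
          intro i hi
          rw [Finset.mem_Ico] at hi
          rw [hs.1 i hi.1 hi.2]
          simp
        have h3 := ht_cnt ζ (show A ≤ B - n - w by omega) (show B - n - w ≤ N by omega)
        simp only [Set.mem_setOf_eq] at hlt
        omega) hzA
    refine h2.trans ?_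
    apply hmain
    intro i hi1 hi2
    rw [phase_occ]
    constructor
    · rintro ⟨⟨_, h3⟩, _⟩; exact Or.inl h3
    · rintro (h3 | ⟨h3, h4⟩)
      · exact ⟨⟨hi1, h3⟩, by omega⟩
      · omega

end Pool.Agent.Helper98.EX
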